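import Pool.Agent.Helper48.OD.St

/-! Project OD, module GNV. -/

set_option autoImplicit false

namespace Pool.Agent.Helper34.OD

open Pool.Agent.Helper43.GD Pool.Agent.Helper48.OD

private theorem gnv_gcd {G : Type} [Group G] (H : Subgroup G) (x : G) (a b : ℕ) (ha : x ^ a ∈ H)
    (hb : x ^ b ∈ H) : x ^ (Nat.gcd a b) ∈ H := by
  have e : x ^ (Nat.gcd a b) = (x ^ a) ^ (Nat.gcdA a b) * (x ^ b) ^ (Nat.gcdB a b) := by
    rw [← zpow_natCast, Nat.gcd_eq_gcd_ab, zpow_add, zpow_mul, zpow_mul, zpow_natCast, zpow_natCast]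
  rw [e]
  exact H.mul_mem (H.zpow_mem ha _) (H.zpow_mem hb _)

/-- **GNV.** -/
theorem hGNV : StGNV := by
  intro l k h L _ x hfin hg hx hh htri
  rw [gn_iff]
  intro R hv
  apply (gn_iff (x : L)).1 hx R
  let H : Subgroup Lˣ :=
    { carrier := {u | (u : L) ∈ R}
      mul_mem' := by
        intro a b ha hb
        have : ((a * b : Lˣ) : L) ∈ R := by
          rw [Units.val_mul]
          exact R.mul_mem ha hb
        exact this
      one_mem' := by
        have : ((1 : Lˣ) : L) ∈ R := by
          rw [Units.val_one]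
          exact R.one_mem
        exact this
      inv_mem' := by
        intro a ha
        exact inv_mem R a ha }
  have hk : x ^ k ∈ H := hv
  have hl : x ^ l ∈ H := by
    have h1 : ((x ^ l : Lˣ) : L) ∈ R := by
      rw [Units.val_pow_eq_pow_val] at hv ⊢
      have e : (x : L) ^ l = 1 - (x : L) ^ k := by rw [← htri]; ring
      rw [e]
      exact R.sub_mem R.one_mem hv
    exact h1
  have hh' : x ^ h ∈ H := by
    have h1 : ((x ^ h : Lˣ) : L) ∈ R := by
      rw [Units.val_pow_eq_pow_val, hh]
      exact R.neg_mem R.one_mem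
    exact h1
  have h2 := gnv_gcd H x _ _ (gnv_gcd H x _ _ hk hl) hh'
  rw [hg, pow_one] at h2
  exact h2

end Pool.Agent.Helper34.OD
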